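import Pool.Agent.H.MP_d900bd_co.B

namespace Pool.Agent.Results.MP_d900bd_co.Cycles

theorem result : ∃ c : ℝ, 0 < c ∧ ∀ (k : ℕ) (H : SimpleGraph (Fin k)), ¬ H.IsAcyclic →
    ∀ (n : ℕ) (F : Finset (SimpleGraph (Fin n))),
      (∀ G₁ ∈ F, ∀ G₂ ∈ F, H.IsContained (G₁ ⊓ G₂)) →
      (F.card : ℝ) ≤ (1 - c) * (2 ^ (n.choose 2) / 2) :=
  ⟨1 / 10 ^ 10, by norm_num, fun _ H hH n F h => Pool.Agent.H.MP_d900bd_co.main H hH n F h⟩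

end Pool.Agent.Results.MP_d900bd_co.Cycles
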